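import Mathlib

/-!
# Choice of the parameters, all powers
-/

set_option autoImplicit false

namespace Pool.Agent.V1156.RV

lemma opt_three {A ℓ h l : ℝ} (hA : 1 ≤ A) {d : ℕ} (hd : 1 ≤ d) (hl : l = 1 + Real.log d)
    (hℓ : 14 * A * l ^ (3 / 4 : ℝ) ≤ Real.sqrt d * ℓ) (hh : 0 ≤ h)
    (H : ∀ k w : ℕ, 1 ≤ k → 1 ≤ w → w ≤ d * k → (w : ℝ) * (k * (d * ℓ)) ≤
      A * (((w : ℝ) ^ 2 + d * k) * (1 + Real.log (d * k)) + d * k * (k ^ 2 * (d * h)))) :
    1 / d ≤ h := by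
  have hd1 : (1:ℝ) ≤ d := by exact_mod_cast hd
  have hld : 0 ≤ Real.log d := Real.log_nonneg hd1
  have hl1 : 1 ≤ l := by linarith
  have hl0 : 0 ≤ l := by linarith
  set s := Real.sqrt d with hs
  have hs1 : 1 ≤ s := Real.one_le_sqrt.mpr hd1
  have hs2 : s ^ 2 = d := Real.sq_sqrt (by linarith)
  set u : ℝ := l ^ (1 / 4 : ℝ) with hu
  have hu1 : 1 ≤ u := Real.one_le_rpow hl1 (by norm_num)
  have hu4 : u ^ 4 = l := by
    rw [hu, ← Real.rpow_natCast, ← Real.rpow_mul hl0]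
    norm_num
  have hu3 : l ^ (3 / 4 : ℝ) = u ^ 3 := by
    rw [hu, ← Real.rpow_natCast, ← Real.rpow_mul hl0]
    norm_num
  rw [hu3] at hℓ
  set k := ⌈u ^ 2⌉₊ with hk
  have hk1 : u ^ 2 ≤ k := Nat.le_ceil _
  have hk2 : (k : ℝ) < u ^ 2 + 1 := Nat.ceil_lt_add_one (by positivity)
  have hk3 : 1 ≤ k := Nat.one_le_ceil_iff.mpr (by positivity)
  have hk3' : (1:ℝ) ≤ k := by exact_mod_cast hk3
  have hu2 : 1 ≤ u ^ 2 := one_le_pow₀ hu1
  have hk4 : (k : ℝ) ^ 2 ≤ 4 * l := by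
    have h1 : (k : ℝ) ≤ 2 * u ^ 2 := by linarith
    have h2 := pow_le_pow_left₀ (by positivity) h1 2
    calc (k : ℝ) ^ 2 ≤ (2 * u ^ 2) ^ 2 := h2
      _ = 4 * l := by rw [← hu4]; ring
  have hk0 : (0:ℝ) < k := by linarith
  have hlogk : Real.log k ≤ l := by
    have h1 : Real.log k ≤ k - 1 := Real.log_le_sub_one_of_pos hk0
    have h2 : u ^ 2 ≤ l := by
      rw [← hu4]
      exact pow_le_pow_right₀ hu1 (by norm_num)
    linarith
  have hlogdk : 1 + Real.log (d * k) ≤ 2 * l := by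
    rw [Real.log_mul (by linarith) (by linarith)]
    linarith
  set t := Real.sqrt k with ht
  have ht2 : t ^ 2 = k := Real.sq_sqrt hk0.le
  have ht1 : 1 ≤ t := Real.one_le_sqrt.mpr hk3'
  have htu : u ≤ t := Real.le_sqrt_of_sq_le hk1
  set w := ⌈s * t⌉₊ with hw
  have hst1 : 1 ≤ s * t := by nlinarith
  have hst2 : (s * t) ^ 2 = d * k := by rw [mul_pow, hs2, ht2]
  have hw1 : s * t ≤ w := Nat.le_ceil _
  have hw2 : (w : ℝ) < s * t + 1 := Nat.ceil_lt_add_one (by linarith)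
  have hw3 : w ≤ d * k := by
    apply Nat.ceil_le.mpr
    push_cast
    rw [← hst2]
    nlinarith
  have hw4 : 1 ≤ w := Nat.one_le_ceil_iff.mpr (by linarith)
  have hw5 : (w : ℝ) ^ 2 ≤ 4 * (d * k) := by
    rw [← hst2]
    nlinarith
  have hℓ0 : 0 < ℓ := by
    by_contra hcon
    push Not at hcon
    have h1 : s * ℓ ≤ 0 := mul_nonpos_of_nonneg_of_nonpos (by linarith) hcon
    have h2 : 0 < 14 * A * u ^ 3 := by positivity
    linarith
  have h1 := H k w hk3 hw4 hw3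
  have hdk0 : 0 < (d : ℝ) * k := by positivity
  have h2 : (d : ℝ) * k * (s * t * ℓ) ≤ d * k * (A * (10 * l + 4 * l * (d * h))) := by
    have e1 : (d : ℝ) * k * (s * t * ℓ) ≤ w * (k * (d * ℓ)) := by
      have := mul_le_mul_of_nonneg_right hw1 (by positivity : 0 ≤ (k : ℝ) * (d * ℓ))
      linarith
    have e2 : ((w : ℝ) ^ 2 + d * k) * (1 + Real.log (d * k)) ≤ 5 * (d * k) * (2 * l) := by
      apply mul_le_mul (by linarith) hlogdk _ (by positivity)
      have : 0 ≤ Real.log (d * k) := Real.log_nonneg (by nlinarith)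
      linarith
    have e3 : (d : ℝ) * k * (k ^ 2 * (d * h)) ≤ d * k * (4 * l * (d * h)) :=
      mul_le_mul_of_nonneg_left (mul_le_mul_of_nonneg_right hk4 (by positivity)) hdk0.le
    have e4 := mul_le_mul_of_nonneg_left (add_le_add e2 e3) (by linarith : 0 ≤ A)
    refine e1.trans (h1.trans (e4.trans (le_of_eq ?_)))
    ring
  have h3 : s * t * ℓ ≤ A * (10 * l + 4 * l * (d * h)) := le_of_mul_le_mul_left h2 hdk0
  have h4 : 14 * A * l ≤ s * t * ℓ := by
    calc 14 * A * l = u * (14 * A * u ^ 3) := by rw [← hu4]; ring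
      _ ≤ u * (s * ℓ) := mul_le_mul_of_nonneg_left hℓ (by linarith)
      _ ≤ t * (s * ℓ) := mul_le_mul_of_nonneg_right htu (by positivity)
      _ = s * t * ℓ := by ring
  have h5 : A * (4 * l) * 1 ≤ A * (4 * l) * (d * h) := by nlinarith
  have h6 : 1 ≤ d * h := le_of_mul_le_mul_left h5 (by positivity)
  rw [div_le_iff₀ (by positivity)]
  linarith

end Pool.Agent.V1156.RV
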