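import Mathlib
import Pool.Agent.V1156.RV.En
import Pool.Agent.V1156.DL.Pot3
import Pool.Agent.TH860.LP.Rel2

/-!
# Energies of the powers of some conjugates, summed over the embeddings
-/

set_option autoImplicit false

open Finset Polynomial Module Filter Topology Real IntermediateField

namespace Pool.Agent.V1156.RV

open Pool.Agent.W666.DL Pool.Agent.W666.DY Pool.Agent.Y642.LZ Pool.Agent.Y642.DL
  Pool.Agent.V1156.DL Pool.Agent.H388SL Pool.Agent.H389R3.LR Pool.Agent.H389R3.LP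

/-- `log⁺` is the Green function of `X ^ 2` -/
lemma green_sq : IsGreen (X ^ 2 : ℤ[X]) (fun z => Real.posLog ‖z‖) 0 where
  monic := monic_X_pow 2
  deg := by rw [natDegree_X_pow]
  hC := le_rfl
  hG0 := fun z => Real.posLog_nonneg
  hG1 := fun z => by simp
  hG2 := fun z => by
    rw [natDegree_X_pow, map_pow, aeval_X, norm_pow, Real.posLog_pow]

lemma prod_roots (r : ℕ) (hr : 0 < r) (z : ℂ) (hz : z ^ r ≠ 1) :
    ∑ s ∈ nthRootsFinset r (1 : ℂ), Real.log ‖z - s‖ = Real.log ‖z ^ r - 1‖ := by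
  have h1 := (Complex.isPrimitiveRoot_exp r hr.ne').pow_sub_pow_eq_prod_sub_mul z 1 hr
  rw [one_pow] at h1
  rw [h1, norm_prod, Real.log_prod]
  · refine Finset.sum_congr rfl fun s _ => ?_
    rw [mul_one]
  · intro s hs
    rw [norm_ne_zero_iff, mul_one, sub_ne_zero]
    rintro rfl
    exact hz ((mem_nthRootsFinset hr _).mp hs)

/-- `z ^ r - 1` divides `z ^ (j r) - 1` -/
lemma NL_pow_sub_one {L : Type*} [Field L] [NumberField L] {z : L} (hz : IsIntegral ℤ z)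
    (r j : ℕ) (h : (z ^ j) ^ r ≠ 1) : NL (z ^ r - 1) ≤ NL ((z ^ j) ^ r - 1) := by
  have h1 : (z ^ j) ^ r - 1 = (z ^ r - 1) * ∑ i ∈ Finset.range j, (z ^ r) ^ i := by
    rw [← pow_mul, mul_comm j r, pow_mul, ← geom_sum_mul, mul_comm]
  have h2 : (z ^ j) ^ r - 1 ≠ 0 := sub_ne_zero.mpr h
  rw [h1] at h2 ⊢
  have h3 := left_ne_zero_of_mul h2
  have h4 := right_ne_zero_of_mul h2
  rw [NL_mul h3 h4]
  have h5 : IsIntegral ℤ (∑ i ∈ Finset.range j, (z ^ r) ^ i) :=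
    IsIntegral.sum _ fun i _ => (hz.pow r).pow i
  have := NL_nonneg h5 h4
  linarith

/-- **the energy inequality for powers of some conjugates** -/
theorem fld_ineq (r : ℕ) (hr : 0 < r) :
    ∃ A : ℝ, 1 ≤ A ∧ ∀ {L : Type} [Field L] [NumberField L] (R : Finset L) (k w : ℕ),
      R.Nonempty → 1 ≤ k → (∀ z ∈ R, IsIntegral ℤ z) →
      (∀ z ∈ R, ∀ z' ∈ R, ∀ i j : ℕ, 1 ≤ i → i ≤ k → 1 ≤ j → j ≤ k → z ^ i = z' ^ j →
        z = z' ∧ i = j) →
      (∀ z ∈ R, ∀ j : ℕ, 1 ≤ j → j ≤ k → (z ^ j) ^ r ≠ 1) → 1 ≤ w → w ≤ R.card * k →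
      (w : ℝ) * (k * ∑ z ∈ R, NL (z ^ r - 1)) ≤
        A * (finrank ℚ L * (((w : ℝ) ^ 2 + R.card * k) * (1 + Real.log (R.card * k))) +
          R.card * k * (k ^ 2 * ∑ z ∈ R, lam z)) := by
  classical
  obtain ⟨A, hA, hmain⟩ := energy_simple_gen green_sq (fun z => by simp)
    (nthRootsFinset r (1 : ℂ)) (fun s hs => by
      rw [map_pow, aeval_X, mem_nthRootsFinset hr] at *
      rw [← pow_mul, mul_comm, pow_mul, hs, one_pow])
  refine ⟨A, hA, ?_⟩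
  intro L _ _ R k w hR hk hint hinj hne hw1 hw2
  have hinjOn : Set.InjOn (fun p : L × ℕ => p.1 ^ p.2) (↑(R ×ˢ Finset.Icc 1 k) : Set (L × ℕ)) := by
    rintro ⟨z, i⟩ h1 ⟨z', j⟩ h2 h
    rw [Finset.mem_coe, Finset.mem_product, Finset.mem_Icc] at h1 h2
    obtain ⟨e1, e2⟩ := hinj z h1.1 z' h2.1 i j h1.2.1 h1.2.2 h2.2.1 h2.2.2 h
    rw [e1, e2]
  set Z : Finset L := (R ×ˢ Finset.Icc 1 k).image (fun p : L × ℕ => p.1 ^ p.2) with hZ
  have hsumZ : ∀ g : L → ℝ, ∑ x ∈ Z, g x = ∑ z ∈ R, ∑ j ∈ Finset.Icc 1 k, g (z ^ j) := by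
    intro g
    rw [hZ, Finset.sum_image hinjOn, Finset.sum_product]
  have hcard : Z.card = R.card * k := by
    rw [hZ, Finset.card_image_of_injOn hinjOn, Finset.card_product, Nat.card_Icc]
    simp
  have hZne : Z.Nonempty := by
    rw [← Finset.card_pos, hcard]
    exact Nat.mul_pos (Finset.card_pos.mpr hR) hk
  have hZmem : ∀ x ∈ Z, IsIntegral ℤ x ∧ x ^ r ≠ 1 := by
    intro x hx
    obtain ⟨⟨z, j⟩, h1, rfl⟩ := Finset.mem_image.mp hx
    rw [Finset.mem_product, Finset.mem_Icc] at h1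
    exact ⟨(hint z h1.1).pow j, hne z h1.1 j h1.2.1 h1.2.2⟩
  -- one embedding
  have hσ : ∀ σ : L →ₐ[ℚ] ℂ, (w : ℝ) * ∑ x ∈ Z, Real.log ‖σ (x ^ r - 1)‖ +
      (1 / 2) * ∑ x ∈ Z, ∑ y ∈ Z, Real.log ‖σ (x - y)‖ ≤
      A * (((w : ℝ) ^ 2 + Z.card) * (1 + Real.log Z.card) +
        Z.card * ∑ x ∈ Z, Real.log (max 1 ‖σ x‖)) := by
    intro σ
    have hσinj : Set.InjOn (fun x : L => σ x) (Z : Set L) := fun x _ y _ h =>
      σ.toRingHom.injective h
    have hc : (Z.image fun x : L => σ x).card = Z.card := Finset.card_image_of_injOn hσinj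
    have hsub : ∀ z ∈ (Z.image fun x : L => σ x), z ^ r ≠ 1 := by
      intro z hz
      obtain ⟨x, hx, rfl⟩ := Finset.mem_image.mp hz
      intro h
      rw [← map_pow, ← map_one σ] at h
      exact (hZmem x hx).2 (σ.toRingHom.injective h)
    have h := hmain (Z.image fun x : L => σ x) (hZne.image _) (by
      intro z hz s hs h
      apply hsub z hz
      rw [h]
      exact (mem_nthRootsFinset hr _).mp hs) w (by omega) (by rw [hc, hcard]; exact hw2)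
    rw [hc, Finset.sum_image hσinj, Finset.sum_image hσinj, Finset.sum_image hσinj] at h
    have e1 : ∑ x ∈ Z, ∑ s ∈ nthRootsFinset r (1 : ℂ), Real.log ‖σ x - s‖ =
        ∑ x ∈ Z, Real.log ‖σ (x ^ r - 1)‖ := by
      refine Finset.sum_congr rfl fun x hx => ?_
      rw [prod_roots r hr _ (hsub _ (Finset.mem_image_of_mem _ hx)), map_sub, map_pow, map_one]
    have e2 : ∑ x ∈ Z, ∑ z' ∈ Z.image (fun x : L => σ x), Real.log ‖σ x - z'‖ =
        ∑ x ∈ Z, ∑ y ∈ Z, Real.log ‖σ (x - y)‖ := by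
      refine Finset.sum_congr rfl fun x hx => ?_
      rw [Finset.sum_image hσinj]
      refine Finset.sum_congr rfl fun y hy => ?_
      rw [map_sub]
    have e3 : ∑ x ∈ Z, Real.posLog ‖σ x‖ = ∑ x ∈ Z, Real.log (max 1 ‖σ x‖) := by
      refine Finset.sum_congr rfl fun x hx => ?_
      rw [Real.posLog_eq_log_max_one (norm_nonneg _)]
    rw [e1, e2, e3] at h
    exact h
  -- the sum over the embeddings
  have hsum := Finset.sum_le_sum fun (σ : L →ₐ[ℚ] ℂ) (_ : σ ∈ Finset.univ) => hσ σ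
  rw [Finset.sum_add_distrib, ← Finset.mul_sum, ← Finset.mul_sum, ← Finset.mul_sum,
    Finset.sum_add_distrib, Finset.sum_const, Finset.card_univ, AlgHom.card, nsmul_eq_mul,
    ← Finset.mul_sum] at hsum
  -- the values
  have hval : (k : ℝ) * ∑ z ∈ R, NL (z ^ r - 1) ≤
      ∑ σ : L →ₐ[ℚ] ℂ, ∑ x ∈ Z, Real.log ‖σ (x ^ r - 1)‖ := by
    rw [Finset.sum_comm]
    have e1 : ∑ x ∈ Z, ∑ σ : L →ₐ[ℚ] ℂ, Real.log ‖σ (x ^ r - 1)‖ =
        ∑ z ∈ R, ∑ j ∈ Finset.Icc 1 k, NL ((z ^ j) ^ r - 1) := hsumZ fun x => NL (x ^ r - 1)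
    rw [e1, Finset.mul_sum]
    refine Finset.sum_le_sum fun z hz => ?_
    calc (k : ℝ) * NL (z ^ r - 1) = ∑ j ∈ Finset.Icc 1 k, NL (z ^ r - 1) := by
          rw [Finset.sum_const, Nat.card_Icc, nsmul_eq_mul]
          simp
      _ ≤ _ := Finset.sum_le_sum fun j hj => by
          rw [Finset.mem_Icc] at hj
          exact NL_pow_sub_one (hint z hz) r j (hne z hz j hj.1 hj.2)
  have hE : 0 ≤ ∑ σ : L →ₐ[ℚ] ℂ, ∑ x ∈ Z, ∑ y ∈ Z, Real.log ‖σ (x - y)‖ := by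
    rw [Finset.sum_comm]
    refine Finset.sum_nonneg fun x hx => ?_
    rw [Finset.sum_comm]
    refine Finset.sum_nonneg fun y hy => ?_
    by_cases hxy : x = y
    · rw [hxy, sub_self]
      simp
    · exact NL_nonneg ((hZmem x hx).1.sub (hZmem y hy).1) (sub_ne_zero.mpr hxy)
  have hH : ∑ σ : L →ₐ[ℚ] ℂ, ∑ x ∈ Z, Real.log (max 1 ‖σ x‖) ≤ k ^ 2 * ∑ z ∈ R, lam z := by
    rw [Finset.sum_comm]
    have e1 : ∑ x ∈ Z, ∑ σ : L →ₐ[ℚ] ℂ, Real.log (max 1 ‖σ x‖) =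
        ∑ z ∈ R, ∑ j ∈ Finset.Icc 1 k, lam (z ^ j) := hsumZ fun x => lam x
    rw [e1, Finset.mul_sum]
    refine Finset.sum_le_sum fun z hz => ?_
    calc ∑ j ∈ Finset.Icc 1 k, lam (z ^ j) ≤ ∑ j ∈ Finset.Icc 1 k, (k : ℝ) * lam z := by
          refine Finset.sum_le_sum fun j hj => ?_
          rw [Finset.mem_Icc] at hj
          rw [lam_pow]
          exact mul_le_mul_of_nonneg_right (by exact_mod_cast hj.2) (lam_nonneg z)
      _ = (k : ℝ) ^ 2 * lam z := by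
          rw [Finset.sum_const, Nat.card_Icc, nsmul_eq_mul]
          simp
          ring
  have hcR : (Z.card : ℝ) = R.card * k := by rw [hcard]; push_cast; ring
  rw [hcR] at hsum
  have h1 := mul_le_mul_of_nonneg_left hval (Nat.cast_nonneg (α := ℝ) w)
  have h2 : (R.card : ℝ) * k * ∑ σ : L →ₐ[ℚ] ℂ, ∑ x ∈ Z, Real.log (max 1 ‖σ x‖) ≤
      R.card * k * (k ^ 2 * ∑ z ∈ R, lam z) := mul_le_mul_of_nonneg_left hH (by positivity)
  have h3 := mul_le_mul_of_nonneg_left h2 (by linarith : 0 ≤ A)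
  nlinarith

end Pool.Agent.V1156.RV
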