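import Mathlib
import Pool.Agent.V1156.RV.Fld
import Pool.Agent.V1156.DL.Pot4

/-!
# Large norms relative to an arbitrary field
-/

set_option autoImplicit false

open Finset Polynomial Module Filter Topology IntermediateField

namespace Pool.Agent.V1156.RV

open Pool.Agent.W666.DL Pool.Agent.W666.DY Pool.Agent.Y642.LZ Pool.Agent.Y642.DL
  Pool.Agent.V1156.DL Pool.Agent.H388SL Pool.Agent.H389R3.LR Pool.Agent.H389R3.LP
  Pool.Agent.TH860.LP

/-- the absolute value of the norm of `α ^ r - 1` (product over the zeros of `g`) -/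
noncomputable def absN (g : ℤ[X]) (r : ℕ) : ℝ :=
  ((g.map (Int.castRingHom ℂ)).roots.map fun y => ‖y ^ r - 1‖).prod

lemma NL_eq_absN {L : Type} [Field L] [NumberField L] {z : L} (hz : IsIntegral ℤ z) (r : ℕ)
    (h : z ^ r ≠ 1) :
    NL (z ^ r - 1) = finrank ℚ L * (Real.log (absN (minpoly ℤ z) r) / (minpoly ℤ z).natDegree) := by
  classical
  have h1 := logNorm_eq (X ^ r - 1 : ℤ[X]) z
  have h2 : aeval z (X ^ r - 1 : ℤ[X]) = z ^ r - 1 := by simp
  rw [h2] at h1
  have h3 : logNorm (X ^ r - 1 : ℤ[X]) z = Real.log (absN (minpoly ℤ z) r) := by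
    unfold logNorm absN
    rw [minpolyZ_map hz, Finset.prod_eq_multiset_prod, roots_multiset_prod_X_sub_C]
    have h4 : ((conjSet z).val.map fun y => ‖y ^ r - 1‖).prod = ∏ y ∈ conjSet z, ‖y ^ r - 1‖ := rfl
    rw [h4, Real.log_prod]
    · refine Finset.sum_congr rfl fun y _ => ?_
      simp
    · intro y hy
      obtain ⟨σ, hσ⟩ := mem_conjSet.mp hy
      rw [← hσ, norm_ne_zero_iff, ← map_pow, ← map_one σ, ← map_sub]
      exact (map_ne_zero σ).mpr (sub_ne_zero.mpr h)
  have h4 : (minpoly ℚ z).natDegree = (minpoly ℤ z).natDegree := by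
    rw [minpoly.isIntegrallyClosed_eq_field_fractions' ℚ hz, (minpoly.monic hz).natDegree_map]
  rw [h3, h4] at h1
  have hn : (0:ℝ) < (minpoly ℤ z).natDegree := by exact_mod_cast minpoly.natDegree_pos hz
  have hD0 : (0:ℝ) < finrank ℚ L := by exact_mod_cast (finrank_pos : 0 < finrank ℚ L)
  rw [h1]
  field_simp

variable {F : IntermediateField ℚ ℂ}

/-- **the relative inequality** -/
theorem rel_large (r : ℕ) (hr : 0 < r) :
    ∃ A : ℝ, 1 ≤ A ∧ ∀ (F : IntermediateField ℚ ℂ) {α : ℂ}, IsIntegral ℤ α → ∀ k w : ℕ, 1 ≤ k →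
      (k = 1 ∨ (0 < hgt α ∧ ∀ z ∈ (minpoly F α).rootSet ℂ, ∀ z' ∈ (minpoly F α).rootSet ℂ,
        z ≠ z' → ∀ j : ℕ, 1 ≤ j → z ^ j ≠ z' ^ j)) → α ^ r ≠ 1 → 1 ≤ w →
      w ≤ (minpoly F α).natDegree * k →
      (w : ℝ) * (k * ((minpoly F α).natDegree *
        (Real.log (absN (minpoly ℤ α) r) / (minpoly ℤ α).natDegree))) ≤
        A * (((w : ℝ) ^ 2 + (minpoly F α).natDegree * k) *
          (1 + Real.log ((minpoly F α).natDegree * k)) +
          (minpoly F α).natDegree * k * (k ^ 2 * ((minpoly F α).natDegree * hgt α))) := by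
  classical
  obtain ⟨A, hA, hmain⟩ := fld_ineq r hr
  refine ⟨A, hA, ?_⟩
  intro F α hα k w hk hnd hαr hw1 hw2
  have hαF : IsIntegral F α := hα.tower_top
  set g := minpoly ℤ α with hg
  -- the conjugates
  set Rt : Finset ℂ := ((minpoly F α).map (algebraMap F ℂ)).roots.toFinset with hRtdef
  have hmap0 : (minpoly F α).map (algebraMap F ℂ) ≠ 0 :=
    (Polynomial.map_ne_zero_iff (algebraMap F ℂ).injective).mpr (minpoly.ne_zero hαF)
  have hRt : ∀ z, z ∈ Rt ↔ aeval z (minpoly F α) = 0 := by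
    intro z
    rw [hRtdef, Multiset.mem_toFinset, mem_roots hmap0, IsRoot.def, eval_map_algebraMap]
  have hnodup : ((minpoly F α).map (algebraMap F ℂ)).roots.Nodup :=
    nodup_roots ((minpoly.irreducible hαF).separable.map)
  have hprod : (minpoly F α).map (algebraMap F ℂ) = ∏ z ∈ Rt, (X - C z) := by
    have h1 := (IsAlgClosed.splits ((minpoly F α).map (algebraMap F ℂ))).eq_prod_roots_of_monic
      ((minpoly.monic hαF).map _)
    conv_lhs => rw [h1]
    rw [Finset.prod_eq_multiset_prod, hRtdef, Multiset.toFinset_val, hnodup.dedup]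
  have hRcard : Rt.card = (minpoly F α).natDegree := by
    have h1 := congrArg Polynomial.natDegree hprod
    rw [natDegree_prod_of_monic _ _ (fun z _ => monic_X_sub_C z),
      (minpoly.monic hαF).natDegree_map] at h1
    simp only [natDegree_X_sub_C, Finset.sum_const, smul_eq_mul, mul_one] at h1
    exact h1.symm
  have hαR : α ∈ Rt := (hRt α).mpr (minpoly.aeval F α)
  have hroot : ∀ z ∈ Rt, aeval z g = 0 := by
    intro z hz
    have h1 : minpoly F α ∣ g.map (algebraMap ℤ F) := by
      apply minpoly.dvd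
      rw [aeval_map_algebraMap]
      exact minpoly.aeval ℤ α
    have h2 := (hRt z).mp hz
    obtain ⟨A, hA⟩ := h1
    have h3 : aeval z (g.map (algebraMap ℤ F)) = 0 := by
      rw [hA, map_mul, h2, zero_mul]
    rwa [aeval_map_algebraMap] at h3
  have hgm : g.Monic := minpoly.monic hα
  set L := IntermediateField.adjoin ℚ (g.rootSet ℂ) with hL
  have hzR : ∀ z ∈ Rt, z ∈ g.rootSet ℂ := fun z hz => mem_rootSet.mpr ⟨hgm.ne_zero, hroot z hz⟩
  have hint : ∀ z ∈ g.rootSet ℂ, IsIntegral ℤ z := fun z hz =>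
    ⟨g, hgm, by rw [← Polynomial.aeval_def]; exact (mem_rootSet.mp hz).2⟩
  have : Finite (g.rootSet ℂ) := (rootSet_finite g ℂ).to_subtype
  have hfin : FiniteDimensional ℚ L := IntermediateField.finiteDimensional_adjoin
    fun z hz => (hint z hz).tower_top
  have : NumberField L := { to_charZero := inferInstance, to_finiteDimensional := hfin }
  have hmemL : ∀ z ∈ Rt, z ∈ L := fun z hz => IntermediateField.subset_adjoin ℚ _ (hzR _ hz)
  -- the conjugates in `L`
  set R : Finset L := Rt.attach.image fun z : {x // x ∈ Rt} => (⟨(z : ℂ), hmemL z z.2⟩ : L) with hR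
  have hRcard' : R.card = (minpoly F α).natDegree := by
    rw [hR, Finset.card_image_of_injective, Finset.card_attach, hRcard]
    intro x y hxy
    exact Subtype.ext (congrArg (fun u : L => (u : ℂ)) hxy)
  have hRmem : ∀ x ∈ R, (x : ℂ) ∈ Rt := by
    intro x hx
    obtain ⟨z, _, rfl⟩ := Finset.mem_image.mp hx
    exact z.2
  have hRint : ∀ x ∈ R, IsIntegral ℤ x := by
    intro x hx
    have h1 := hint _ (hzR _ (hRmem x hx))
    exact (isIntegral_algebraMap_iff (algebraMap L ℂ).injective).mp h1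
  have hRmin : ∀ x ∈ R, minpoly ℤ x = g := by
    intro x hx
    have h1 : minpoly ℤ (x : ℂ) = minpoly ℤ x :=
      minpoly.algebraMap_eq (algebraMap L ℂ).injective x
    rw [← h1]
    have h2 := minpoly.isIntegrallyClosed_dvd (hint _ (hzR _ (hRmem x hx))) (hroot _ (hRmem x hx))
    have h3 : Associated (minpoly ℤ (x : ℂ)) g :=
      (minpoly.irreducible (hint _ (hzR _ (hRmem x hx)))).associated_of_dvd
        (minpoly.irreducible hα) h2
    exact eq_of_monic_of_associated (minpoly.monic (hint _ (hzR _ (hRmem x hx)))) hgm h3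
  have hlam : ∀ x ∈ R, lam x = finrank ℚ L * hgt α := by
    intro x hx
    rw [lam_root (hRint x hx), hRmin x hx]
    rfl
  have hfr : (0 : ℝ) < finrank ℚ L := by exact_mod_cast finrank_pos (R := ℚ) (M := L)
  have hxr : ∀ x ∈ R, x ^ r ≠ 1 := by
    intro x hx h
    apply hαr
    have h1 : aeval x (X ^ r - 1 : ℤ[X]) = 0 := by simp [h]
    have h2 : g ∣ (X ^ r - 1 : ℤ[X]) := by
      rw [← hRmin x hx]
      exact minpoly.isIntegrallyClosed_dvd (hRint x hx) h1
    obtain ⟨u, hu⟩ := h2
    have h3 : aeval α (X ^ r - 1 : ℤ[X]) = 0 := by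
      rw [hu, map_mul, hg, minpoly.aeval, zero_mul]
    rw [map_sub, map_pow, aeval_X, map_one, sub_eq_zero] at h3
    exact h3
  have hRne : R.Nonempty := by
    rw [← Finset.card_pos, hRcard']
    exact minpoly.natDegree_pos hαF
  have hpow : 0 < hgt α → ∀ x ∈ R, ∀ x' ∈ R, ∀ i j : ℕ, x ^ i = x' ^ j → i = j := by
    intro hpos x hx x' hx' i j hij
    have h1 := congrArg lam hij
    rw [lam_pow, lam_pow, hlam x hx, hlam x' hx'] at h1
    have h2 : 0 < (finrank ℚ L : ℝ) * hgt α := mul_pos hfr hpos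
    have h3 : (i : ℝ) = j := mul_right_cancel₀ h2.ne' h1
    exact_mod_cast h3
  have h := hmain R k w hRne hk hRint
    (by
      intro x hx x' hx' i j hi1 hik hj1 hjk hij
      rcases hnd with h1 | ⟨hpos, h1⟩
      · have hi : i = 1 := by omega
        have hj : j = 1 := by omega
        subst hi
        subst hj
        rw [pow_one, pow_one] at hij
        exact ⟨hij, rfl⟩
      · have e1 := hpow hpos x hx x' hx' i j hij
        refine ⟨?_, e1⟩
        subst e1
        by_contra hne
        refine h1 x (mem_rootSet.mpr ⟨minpoly.ne_zero hαF, (hRt _).mp (hRmem x hx)⟩)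
          x' (mem_rootSet.mpr ⟨minpoly.ne_zero hαF, (hRt _).mp (hRmem x' hx')⟩)
          (fun h2 => hne (Subtype.ext h2)) i hi1 ?_
        exact congrArg (fun u : L => (u : ℂ)) hij)
    (by
      intro x hx j hj1 hjk
      rcases hnd with h1 | ⟨hpos, h1⟩
      · have hj : j = 1 := by omega
        subst hj
        rw [pow_one]
        exact hxr x hx
      · intro h2
        have h3 : x ^ (j * r) = x ^ 0 := by rw [pow_mul, h2, pow_zero]
        have h4 := hpow hpos x hx x hx _ _ h3
        have : 0 < j * r := Nat.mul_pos hj1 hr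
        omega) hw1 (by rw [hRcard']; exact hw2)
  rw [hRcard'] at h
  have e1 : ∑ x ∈ R, NL (x ^ r - 1) = (minpoly F α).natDegree *
      (finrank ℚ L * (Real.log (absN g r) / g.natDegree)) := by
    rw [← hRcard', ← nsmul_eq_mul, ← Finset.sum_const]
    refine Finset.sum_congr rfl fun x hx => ?_
    rw [NL_eq_absN (hRint x hx) r (hxr x hx), hRmin x hx]
  have e2 : ∑ x ∈ R, lam x = (minpoly F α).natDegree * (finrank ℚ L * hgt α) := by
    rw [← hRcard', ← nsmul_eq_mul, ← Finset.sum_const]
    exact Finset.sum_congr rfl hlam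
  rw [e1, e2] at h
  have h2 : (finrank ℚ L : ℝ) * ((w : ℝ) * (k * ((minpoly F α).natDegree *
        (Real.log (absN g r) / g.natDegree)))) ≤
      finrank ℚ L * (A * (((w : ℝ) ^ 2 + (minpoly F α).natDegree * k) *
          (1 + Real.log ((minpoly F α).natDegree * k)) +
          (minpoly F α).natDegree * k * (k ^ 2 * ((minpoly F α).natDegree * hgt α)))) := by
    refine le_trans (le_of_eq ?_) (h.trans (le_of_eq ?_))
    · ring
    · ring
  exact le_of_mul_le_mul_left h2 hfr

end Pool.Agent.V1156.RV
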